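import Pool.Agent.Helper92.Ru.GoalsR

/-!
# MP_d1d051_nt, packets WronFact (R5) and PHMul (R11)
-/

set_option autoImplicit false

open MvPolynomial

namespace Pool.Agent.Helper54.Ru

open Pool.Agent.Helper92.Ru

theorem cmb_castSucc {m : ℕ} (μ : Fin m →₀ ℕ) (ν : Fin 1 →₀ ℕ) (i : Fin m) :
    cmb μ ν (Fin.castSucc i) = μ i := by
  unfold cmb
  rw [Finsupp.add_apply, Finsupp.mapDomain_apply (Fin.castSucc_injective m)]
  rw [Finsupp.mapDomain_of_notMem_range]
  · simp
  · rintro ⟨j, hj⟩
    exact (Fin.castSucc_lt_last i).ne hj.symm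

theorem cmb_last {m : ℕ} (μ : Fin m →₀ ℕ) (ν : Fin 1 →₀ ℕ) :
    cmb μ ν (Fin.last m) = ν 0 := by
  unfold cmb
  have hinj : Function.Injective (fun _ : Fin 1 => Fin.last m) := fun a b _ => Subsingleton.elim a b
  rw [Finsupp.add_apply, Finsupp.mapDomain_of_notMem_range]
  · have := Finsupp.mapDomain_apply hinj ν 0
    rw [this, zero_add]
  · rintro ⟨j, hj⟩
    exact (Fin.castSucc_lt_last j).ne hj

theorem cmb_inj {m : ℕ} {μ μ' : Fin m →₀ ℕ} {ν ν' : Fin 1 →₀ ℕ} (h : cmb μ ν = cmb μ' ν') :
    μ = μ' ∧ ν = ν' := by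
  constructor
  · ext i
    have := DFunLike.congr_fun h (Fin.castSucc i)
    rwa [cmb_castSucc, cmb_castSucc] at this
  · apply Finsupp.ext
    intro i
    have := DFunLike.congr_fun h (Fin.last m)
    rw [cmb_last, cmb_last] at this
    rw [Subsingleton.elim i 0, this]

theorem cmb_surj {m : ℕ} (e : Fin (m + 1) →₀ ℕ) :
    ∃ (μ : Fin m →₀ ℕ) (ν : Fin 1 →₀ ℕ), cmb μ ν = e := by
  refine ⟨Finsupp.equivFunOnFinite.symm (fun i => e (Fin.castSucc i)),
    Finsupp.equivFunOnFinite.symm (fun _ => e (Fin.last m)), ?_⟩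
  ext i
  refine Fin.lastCases ?_ (fun j => ?_) i
  · rw [cmb_last]; simp
  · rw [cmb_castSucc]; simp

section

variable {k : Type} [Field k] {m : ℕ}

theorem UV_monomial (a : Fin m →₀ ℕ) (b : Fin 1 →₀ ℕ) (x y : k) :
    UV (monomial a x) (monomial b y) = monomial (cmb a b) (x * y) := by
  unfold UV cmb
  rw [rename_monomial, rename_monomial, monomial_mul]

theorem UV_add_left (f f' : MvPolynomial (Fin m) k) (g : MvPolynomial (Fin 1) k) :
    UV (f + f') g = UV f g + UV f' g := by
  unfold UV; rw [map_add, add_mul]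

theorem UV_add_right (f : MvPolynomial (Fin m) k) (g g' : MvPolynomial (Fin 1) k) :
    UV f (g + g') = UV f g + UV f g' := by
  unfold UV; rw [map_add, mul_add]

/-- coefficients of a product in disjoint variables -/
theorem coeff_UV (a : Fin m →₀ ℕ) (b : Fin 1 →₀ ℕ) (U : MvPolynomial (Fin m) k)
    (V : MvPolynomial (Fin 1) k) :
    coeff (cmb a b) (UV U V) = coeff a U * coeff b V := by
  classical
  induction U using MvPolynomial.induction_on' with
  | add p q hp hq => rw [UV_add_left, coeff_add, coeff_add, hp, hq, add_mul]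
  | monomial a' x =>
    induction V using MvPolynomial.induction_on' with
    | add p q hp hq => rw [UV_add_right, coeff_add, coeff_add, hp, hq, mul_add]
    | monomial b' y =>
      rw [UV_monomial, coeff_monomial, coeff_monomial, coeff_monomial]
      by_cases h1 : a' = a
      · by_cases h2 : b' = b
        · simp [h1, h2]
        · have : cmb a' b' ≠ cmb a b := fun h => h2 (cmb_inj h).2
          simp [h2, this]
      · have : cmb a' b' ≠ cmb a b := fun h => h1 (cmb_inj h).1
        simp [h1, this]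

theorem hasse_monomial {σ : Type} (μ e : σ →₀ ℕ) (c : k) :
    hasse μ (monomial e c) =
      monomial (e - μ) (c * ((∏ i ∈ μ.support, (e i).choose (μ i) : ℕ) : k)) := by
  have h1 : (monomial e c : MvPolynomial σ k) = c • (basisMonomials σ k) e := by
    rw [coe_basisMonomials, smul_monomial, smul_eq_mul, mul_one]
  rw [h1, map_smul]
  unfold hasse
  rw [Module.Basis.constr_basis, smul_monomial, smul_eq_mul]

theorem prod_support_eq {n : ℕ} (μ e : Fin n →₀ ℕ) :
    ∏ i ∈ μ.support, (e i).choose (μ i) = ∏ i, (e i).choose (μ i) := by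
  apply Finset.prod_subset (Finset.subset_univ _)
  intro i _ hi
  rw [Finsupp.notMem_support_iff.mp hi, Nat.choose_zero_right]

theorem hasse_cmb_UV (μ : Fin m →₀ ℕ) (ν : Fin 1 →₀ ℕ) (f : MvPolynomial (Fin m) k)
    (g : MvPolynomial (Fin 1) k) :
    hasse (cmb μ ν) (UV f g) = UV (hasse μ f) (hasse ν g) := by
  induction f using MvPolynomial.induction_on' with
  | add p q hp hq => rw [UV_add_left, map_add, hp, hq, map_add, UV_add_left]
  | monomial a x =>
    induction g using MvPolynomial.induction_on' with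
    | add p q hp hq => rw [UV_add_right, map_add, hp, hq, map_add, UV_add_right]
    | monomial b y =>
      rw [UV_monomial, hasse_monomial, hasse_monomial, hasse_monomial, UV_monomial]
      have e1 : cmb a b - cmb μ ν = cmb (a - μ) (b - ν) := by
        ext i
        refine Fin.lastCases ?_ (fun j => ?_) i
        · rw [Finsupp.tsub_apply, cmb_last, cmb_last, cmb_last, Finsupp.tsub_apply]
        · rw [Finsupp.tsub_apply, cmb_castSucc, cmb_castSucc, cmb_castSucc, Finsupp.tsub_apply]
      rw [e1]
      congr 1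
      rw [prod_support_eq, prod_support_eq, prod_support_eq, Fin.prod_univ_castSucc]
      simp only [cmb_castSucc, cmb_last, Finset.univ_unique, Fin.default_eq_zero,
        Finset.prod_singleton]
      push_cast
      ring

end

/-- R5 -/
theorem wronFact : WronFact := by
  intro k _ m s f g μ ν
  have h1 : (Matrix.of (fun i j => hasse (cmb (μ i) (ν j)) (∑ l, UV (f l) (g l)))) =
      ((rename (Fin.castSucc : Fin m → Fin (m+1)) :
          MvPolynomial (Fin m) k →ₐ[k] MvPolynomial (Fin (m+1)) k).toRingHom.mapMatrix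
        (Matrix.of (fun i l => hasse (μ i) (f l)))) *
      (((rename (fun _ : Fin 1 => Fin.last m) :
          MvPolynomial (Fin 1) k →ₐ[k] MvPolynomial (Fin (m+1)) k).toRingHom.mapMatrix
        (Matrix.of (fun j l => hasse (ν j) (g l))))).transpose := by
    ext1 i j
    rw [Matrix.mul_apply, Matrix.of_apply, map_sum]
    refine Finset.sum_congr rfl (fun l _ => ?_)
    rw [hasse_cmb_UV]
    rfl
  rw [h1, Matrix.det_mul, Matrix.det_transpose, ← RingHom.map_det, ← RingHom.map_det]
  rfl

/-- R11 -/
theorem phMul : PHMul := by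
  intro k _ _ m U V hU hV
  unfold PH
  have hx : (fun e : U.support => coeff e.1 U) ≠ 0 := by
    obtain ⟨e, he⟩ := MvPolynomial.ne_zero_iff.mp hU
    intro h
    exact he (congrFun h ⟨e, MvPolynomial.mem_support_iff.mpr he⟩)
  have hy : (fun e : V.support => coeff e.1 V) ≠ 0 := by
    obtain ⟨e, he⟩ := MvPolynomial.ne_zero_iff.mp hV
    intro h
    exact he (congrFun h ⟨e, MvPolynomial.mem_support_iff.mpr he⟩)
  rw [← Height.mulHeight_fun_mul_eq hx hy]
  let E : (U.support × V.support) → (UV U V).support := fun p =>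
    ⟨cmb p.1.1 p.2.1, by
      rw [MvPolynomial.mem_support_iff, coeff_UV]
      exact mul_ne_zero (MvPolynomial.mem_support_iff.mp p.1.2)
        (MvPolynomial.mem_support_iff.mp p.2.2)⟩
  have hE : Function.Bijective E := by
    constructor
    · rintro ⟨⟨a, ha⟩, ⟨b, hb⟩⟩ ⟨⟨a', ha'⟩, ⟨b', hb'⟩⟩ h
      have h2 := congrArg Subtype.val h
      simp only [E] at h2
      obtain ⟨h3, h4⟩ := cmb_inj h2
      subst h3; subst h4; rfl
    · rintro ⟨e, he⟩
      obtain ⟨a, b, hab⟩ := cmb_surj e
      have he2 := MvPolynomial.mem_support_iff.mp he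
      rw [← hab, coeff_UV] at he2
      refine ⟨(⟨a, MvPolynomial.mem_support_iff.mpr (left_ne_zero_of_mul he2)⟩,
        ⟨b, MvPolynomial.mem_support_iff.mpr (right_ne_zero_of_mul he2)⟩), ?_⟩
      apply Subtype.ext
      exact hab
  rw [← Height.mulHeight_comp_equiv (Equiv.ofBijective E hE)]
  congr 1
  funext p
  exact coeff_UV _ _ _ _

end Pool.Agent.Helper54.Ru
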