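import Pool.Agent.Helper92.Ru.GoalsS

/-!
# MP_d1d051_nt, packet M1int (S1): pigeonhole over the ring of integers
-/

set_option autoImplicit false

open NumberField

namespace Pool.Agent.Helper54.Ru

open Pool.Agent.Helper92.Ru

/-- the cell of a complex number; `R` says if the place is real -/
noncomputable def cell (R : Prop) [Decidable R] (w : ℝ) (y : ℂ) : ℤ × ℤ :=
  if R then (⌊y.re / w⌋, 0) else (⌊y.re / Real.sqrt (w / 2)⌋, ⌊y.im / Real.sqrt (w / 2)⌋)

/-- the finite set of cells -/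
noncomputable def cells (R : Prop) [Decidable R] (w X : ℝ) : Finset (ℤ × ℤ) :=
  if R then Finset.Icc ⌊-X / w⌋ ⌊X / w⌋ ×ˢ {0} else
    Finset.Icc ⌊-X / Real.sqrt (w / 2)⌋ ⌊X / Real.sqrt (w / 2)⌋ ×ˢ
      Finset.Icc ⌊-X / Real.sqrt (w / 2)⌋ ⌊X / Real.sqrt (w / 2)⌋

theorem floor_mem {l X t : ℝ} (hl : 0 < l) (h : |t| ≤ X) :
    ⌊t / l⌋ ∈ Finset.Icc ⌊-X / l⌋ ⌊X / l⌋ := by
  rw [abs_le] at h
  rw [Finset.mem_Icc]
  constructor
  · apply Int.floor_le_floor
    have := h.1
    gcongr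
  · apply Int.floor_le_floor
    have := h.2
    gcongr

theorem cell_mem (R : Prop) [Decidable R] {w X : ℝ} (hw : 0 < w) {y : ℂ} (h : ‖y‖ ≤ X) :
    cell R w y ∈ cells R w X := by
  have h1 : |y.re| ≤ X := (Complex.abs_re_le_norm y).trans h
  have h2 : |y.im| ≤ X := (Complex.abs_im_le_norm y).trans h
  unfold cell cells
  split_ifs with hR
  · rw [Finset.mem_product]
    exact ⟨floor_mem hw h1, by simp⟩
  · have hs : 0 < Real.sqrt (w / 2) := Real.sqrt_pos.mpr (by positivity)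
    rw [Finset.mem_product]
    exact ⟨floor_mem hs h1, floor_mem hs h2⟩

theorem card_Icc_floor {l X : ℝ} (hl : 0 < l) (hX : 0 ≤ X) :
    ((Finset.Icc ⌊-X / l⌋ ⌊X / l⌋).card : ℝ) ≤ 2 * (X / l) + 2 := by
  rw [Int.card_Icc]
  have h1 : ⌊-X / l⌋ ≤ ⌊X / l⌋ := by
    apply Int.floor_le_floor
    gcongr
    linarith
  have h2 : (0 : ℤ) ≤ ⌊X / l⌋ + 1 - ⌊-X / l⌋ := by linarith
  have h3 : (((⌊X / l⌋ + 1 - ⌊-X / l⌋).toNat : ℕ) : ℝ) = ((⌊X / l⌋ + 1 - ⌊-X / l⌋ : ℤ) : ℝ) := by
    have := Int.toNat_of_nonneg h2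
    exact_mod_cast this
  rw [h3]
  push_cast
  have h4 := Int.floor_le (X / l)
  have h5 := Int.lt_floor_add_one (-X / l)
  have h6 : -X / l = -(X / l) := neg_div _ _
  linarith

theorem card_cells (R : Prop) [Decidable R] {w X Z C0 : ℝ} (hw : 0 < w) (hC0 : 0 ≤ C0)
    (hZ : 1 ≤ Z) (hZw : w + 1 ≤ Z) (hX : X = C0 * Z) :
    ((cells R w X).card : ℝ) ≤ ((4 * C0 + 4) * Z) ^ (if R then 1 else 2) / w := by
  have hX0 : 0 ≤ X := by rw [hX]; positivity
  have key : ∀ l : ℝ, 0 < l → l ≤ Z →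
      ((Finset.Icc ⌊-X / l⌋ ⌊X / l⌋).card : ℝ) ≤ (2 * C0 + 2) * Z / l := by
    intro l hl hlZ
    refine (card_Icc_floor hl hX0).trans ?_
    have h1 : (1:ℝ) ≤ Z / l := by rw [le_div_iff₀ hl]; linarith
    have h2 : (2 * C0 + 2) * Z / l = 2 * (X / l) + 2 * (Z / l) := by
      rw [hX]; ring
    rw [h2]
    linarith
  unfold cells
  split_ifs with hR
  · rw [Finset.card_product, Finset.card_singleton, mul_one, pow_one]
    refine (key w hw (by linarith)).trans ?_
    gcongr <;> linarith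
  · have hs : 0 < Real.sqrt (w / 2) := Real.sqrt_pos.mpr (by positivity)
    have hs2 : Real.sqrt (w / 2) ≤ Z := by
      refine le_trans ?_ hZw
      rw [Real.sqrt_le_left (by linarith)]
      nlinarith
    have hk := key _ hs hs2
    rw [Finset.card_product]
    push_cast
    have h0 : (0:ℝ) ≤ ((Finset.Icc ⌊-X / Real.sqrt (w / 2)⌋ ⌊X / Real.sqrt (w / 2)⌋).card : ℝ) :=
      Nat.cast_nonneg _
    have h1 := mul_le_mul hk hk h0 (h0.trans hk)
    refine h1.trans ?_
    have h2 : (2 * C0 + 2) * Z / Real.sqrt (w / 2) * ((2 * C0 + 2) * Z / Real.sqrt (w / 2)) =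
        ((2 * C0 + 2) * Z) ^ 2 * 2 / w := by
      have h3 : Real.sqrt (w / 2) * Real.sqrt (w / 2) = w / 2 :=
        Real.mul_self_sqrt (by positivity)
      rw [div_mul_div_comm, h3]
      field_simp
    rw [h2]
    gcongr
    have : ((4 * C0 + 4) * Z) ^ 2 = ((2 * C0 + 2) * Z) ^ 2 * 4 := by ring
    rw [this]
    have : 0 ≤ ((2 * C0 + 2) * Z) ^ 2 := by positivity
    nlinarith

theorem abs_sub_le_of_floor {l s t : ℝ} (hl : 0 < l) (h : ⌊s / l⌋ = ⌊t / l⌋) : |s - t| ≤ l := by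
  have h1 := Int.abs_sub_lt_one_of_floor_eq_floor h
  have h2 : s / l - t / l = (s - t) / l := by ring
  rw [h2, abs_div, abs_of_pos hl, div_lt_one hl] at h1
  exact h1.le

theorem cell_eq (R : Prop) [Decidable R] {w : ℝ} (hw : 0 < w) {y z : ℂ}
    (h : cell R w y = cell R w z) (hR : R → (y - z).im = 0) :
    ‖y - z‖ ^ (if R then 1 else 2) ≤ w := by
  unfold cell at h
  split_ifs at h ⊢ with hr
  · rw [Prod.mk.injEq] at h
    have h1 := abs_sub_le_of_floor hw h.1
    have h2 : y - z = (((y - z).re : ℝ) : ℂ) := by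
      apply Complex.ext
      · simp
      · simp only [Complex.ofReal_im]; exact hR hr
    rw [h2, pow_one, Complex.norm_real, Real.norm_eq_abs, Complex.sub_re]
    exact h1
  · have hs : 0 < Real.sqrt (w / 2) := Real.sqrt_pos.mpr (by positivity)
    rw [Prod.mk.injEq] at h
    have h1 := abs_sub_le_of_floor hs h.1
    have h2 := abs_sub_le_of_floor hs h.2
    rw [← Complex.normSq_eq_norm_sq, Complex.normSq_apply, Complex.sub_re, Complex.sub_im]
    have h3 : Real.sqrt (w / 2) * Real.sqrt (w / 2) = w / 2 :=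
      Real.mul_self_sqrt (by positivity)
    have h4 : (y.re - z.re) * (y.re - z.re) ≤ w / 2 := by
      rw [← h3, ← abs_mul_abs_self (y.re - z.re)]
      exact mul_le_mul h1 h1 (abs_nonneg _) hs.le
    have h5 : (y.im - z.im) * (y.im - z.im) ≤ w / 2 := by
      rw [← h3, ← abs_mul_abs_self (y.im - z.im)]
      exact mul_le_mul h2 h2 (abs_nonneg _) hs.le
    linarith

theorem card_quot {k : Type} [Field k] [NumberField k] (u : FinitePlace k) (a : ℕ) :
    (Nat.card (𝓞 k ⧸ (u.maximalIdeal.asIdeal ^ a : Ideal (𝓞 k))) : ℝ) = (qw u : ℝ) ^ a := by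
  have h : Ideal.absNorm (u.maximalIdeal.asIdeal ^ a) = qw u ^ a := by
    rw [map_pow]; rfl
  rw [Ideal.absNorm_apply, Submodule.cardQuot_apply] at h
  exact_mod_cast h

theorem finite_quot {k : Type} [Field k] [NumberField k] (u : FinitePlace k) (a : ℕ) :
    Finite (𝓞 k ⧸ (u.maximalIdeal.asIdeal ^ a : Ideal (𝓞 k))) := by
  apply Ideal.finiteQuotientOfFreeOfNeBot
  apply pow_ne_zero
  exact u.maximalIdeal.ne_bot

section main

variable {k : Type} [Field k] [NumberField k] {ι J : Type} [Fintype ι] [Fintype J]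

/-- lattice points -/
noncomputable def pt (ω : Module.Basis J ℤ (𝓞 k)) (Z : ℕ) (c : ι × J → Fin (Z + 1)) :
    ι → 𝓞 k := fun i => ∑ j, ((c (i, j) : ℕ) : ℤ) • ω j

theorem pt_inj (ω : Module.Basis J ℤ (𝓞 k)) (Z : ℕ) {c c' : ι × J → Fin (Z + 1)}
    (h : pt ω Z c = pt ω Z c') : c = c' := by
  funext ⟨i, j⟩
  have h1 := congrFun h i
  unfold pt at h1
  have h2 := congrArg (fun y => ω.repr y j) h1
  simp only [Module.Basis.repr_sum_self] at h2
  exact Fin.ext (by exact_mod_cast h2)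

theorem pt_bound (ω : Module.Basis J ℤ (𝓞 k)) (Z : ℕ) (c : ι × J → Fin (Z + 1))
    (v : InfinitePlace k) (i : ι) :
    v ((pt ω Z c i : 𝓞 k) : k) ≤ (∑ j, v (ω j : k)) * Z := by
  have h0 : ((pt ω Z c i : 𝓞 k) : k) =
      ∑ j, algebraMap (𝓞 k) k (((c (i, j) : ℕ) : ℤ) • ω j) := map_sum (algebraMap (𝓞 k) k) _ _
  rw [h0]
  have h1 : v (∑ j, algebraMap (𝓞 k) k (((c (i, j) : ℕ) : ℤ) • ω j)) ≤
      ∑ j, v (algebraMap (𝓞 k) k (((c (i, j) : ℕ) : ℤ) • ω j)) := v.1.sum_le _ _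
  refine h1.trans ?_
  rw [Finset.sum_mul]
  refine Finset.sum_le_sum (fun j _ => ?_)
  have h2 : algebraMap (𝓞 k) k (((c (i, j) : ℕ) : ℤ) • ω j) = ((c (i, j) : ℕ) : k) * (ω j : k) := by
    rw [zsmul_eq_mul, map_mul]
    simp
  rw [h2, map_mul, mul_comm]
  have h3 : v ((c (i, j) : ℕ) : k) = ((c (i, j) : ℕ) : ℝ) := by
    rw [← InfinitePlace.norm_embedding_eq, map_natCast, Complex.norm_natCast]
  rw [h3]
  have h4 : ((c (i, j) : ℕ) : ℝ) ≤ Z := by
    exact_mod_cast Nat.lt_succ_iff.mp (c (i, j)).2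
  exact mul_le_mul_of_nonneg_left h4 (apply_nonneg v _)

theorem mulVec_bound (ω : Module.Basis J ℤ (𝓞 k)) (Z : ℕ) (c : ι × J → Fin (Z + 1))
    (A : InfinitePlace k → Matrix ι ι k) (v : InfinitePlace k) (i : ι) :
    v ((A v).mulVec (fun l => ((pt ω Z c l : 𝓞 k) : k)) i) ≤
      (∑ v : InfinitePlace k, ∑ i, ∑ l, v (A v i l) * ∑ j, v (ω j : k)) * Z := by
  have h1 : v ((A v).mulVec (fun l => ((pt ω Z c l : 𝓞 k) : k)) i) ≤
      ∑ l, v (A v i l * ((pt ω Z c l : 𝓞 k) : k)) := v.1.sum_le _ _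
  have h2 : ∑ l, v (A v i l * ((pt ω Z c l : 𝓞 k) : k)) ≤
      (∑ l, v (A v i l) * ∑ j, v (ω j : k)) * Z := by
    rw [Finset.sum_mul]
    refine Finset.sum_le_sum (fun l _ => ?_)
    rw [map_mul, mul_assoc]
    exact mul_le_mul_of_nonneg_left (pt_bound ω Z c v l) (apply_nonneg v _)
  refine (h1.trans h2).trans ?_
  have hnn : ∀ (v : InfinitePlace k) (i : ι), 0 ≤ ∑ l, v (A v i l) * ∑ j, v (ω j : k) :=
    fun v i => Finset.sum_nonneg (fun l _ => mul_nonneg (apply_nonneg v _)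
      (Finset.sum_nonneg (fun j _ => apply_nonneg v _)))
  have h3 : (∑ l, v (A v i l) * ∑ j, v (ω j : k)) ≤
      ∑ i, ∑ l, v (A v i l) * ∑ j, v (ω j : k) :=
    Finset.single_le_sum (f := fun i => ∑ l, v (A v i l) * ∑ j, v (ω j : k))
      (fun i _ => hnn v i) (Finset.mem_univ i)
  have h4 : (∑ i, ∑ l, v (A v i l) * ∑ j, v (ω j : k)) ≤
      ∑ v : InfinitePlace k, ∑ i, ∑ l, v (A v i l) * ∑ j, v (ω j : k) :=
    Finset.single_le_sum (f := fun v : InfinitePlace k =>
      ∑ i, ∑ l, v (A v i l) * ∑ j, v (ω j : k))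
      (fun v _ => Finset.sum_nonneg (fun i _ => hnn v i)) (Finset.mem_univ v)
  exact mul_le_mul_of_nonneg_right (h3.trans h4) (Nat.cast_nonneg _)

end main


/-- abstract pigeonhole principle -/
theorem pigeon {P V I U : Type} [Fintype P] [Fintype V] [Fintype I] [Fintype U]
    (S : V → I → Finset (ℤ × ℤ)) (Q : U → I → Type) (hQ : ∀ u i, Finite (Q u i))
    (f : P → V → I → ℤ × ℤ) (g : P → ∀ u i, Q u i) (hf : ∀ c v i, f c v i ∈ S v i)
    (hcard : (∏ v, ∏ i, (S v i).card) * ∏ u, ∏ i, Nat.card (Q u i) < Fintype.card P) :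
    ∃ c c' : P, c ≠ c' ∧ f c = f c' ∧ g c = g c' := by
  classical
  have : ∀ u i, Fintype (Q u i) := fun u i => Fintype.ofFinite _
  let t : Finset ((V → I → ℤ × ℤ) × (∀ u i, Q u i)) :=
    (Fintype.piFinset fun v => Fintype.piFinset fun i => S v i) ×ˢ Finset.univ
  have hmaps : ∀ c ∈ (Finset.univ : Finset P), (f c, g c) ∈ t := by
    intro c _
    rw [Finset.mem_product]
    refine ⟨?_, Finset.mem_univ _⟩
    rw [Fintype.mem_piFinset]
    intro v
    rw [Fintype.mem_piFinset]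
    intro i
    exact hf c v i
  have hc : t.card < (Finset.univ : Finset P).card := by
    rw [Finset.card_product, Fintype.card_piFinset]
    simp only [Fintype.card_piFinset]
    rw [Finset.card_univ, Fintype.card_pi]
    simp only [Fintype.card_pi, ← Nat.card_eq_fintype_card (α := Q _ _)]
    rw [Finset.card_univ]
    exact hcard
  obtain ⟨c, -, c', -, hcc, hf⟩ := Finset.exists_ne_map_eq_of_card_lt_of_maps_to hc hmaps
  exact ⟨c, c', hcc, congrArg Prod.fst hf, congrArg Prod.snd hf⟩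

/-- the counting inequality -/
theorem count_lt {V I U : Type} [Fintype V] [Fintype I] [Fintype U]
    (S : V → I → ℕ) (q : U → I → ℕ) (m : V → ℕ) (w : V → I → ℝ) (C Z : ℝ) (n : ℕ) (M : ℕ)
    (hn : 0 < n) (hI : 0 < Fintype.card I) (hm : ∑ v, m v = n) (hw : ∀ v i, 0 < w v i)
    (hC : 0 ≤ C) (hZ : 1 ≤ Z)
    (hS : ∀ v i, (S v i : ℝ) ≤ (C * Z) ^ m v / w v i)
    (hq : C ^ (n * Fintype.card I) * ∏ u, ∏ i, (q u i : ℝ) ≤ ∏ v, ∏ i, w v i)
    (hM : (M : ℝ) = (Z + 1) ^ (n * Fintype.card I)) :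
    (∏ v, ∏ i, S v i) * ∏ u, ∏ i, q u i < M := by
  have h1 : ∏ v, ∏ i, (S v i : ℝ) ≤ (C * Z) ^ (n * Fintype.card I) / ∏ v, ∏ i, w v i := by
    have h2 : ∏ v, ∏ i, (S v i : ℝ) ≤ ∏ v, ∏ i, ((C * Z) ^ m v / w v i) := by
      apply Finset.prod_le_prod
      · intro v _; exact Finset.prod_nonneg (fun i _ => Nat.cast_nonneg _)
      · intro v _
        apply Finset.prod_le_prod
        · intro i _; exact Nat.cast_nonneg _
        · intro i _
          exact hS v i
    refine h2.trans (le_of_eq ?_)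
    simp only [Finset.prod_div_distrib, Finset.prod_const, Finset.card_univ]
    congr 1
    rw [← hm, Finset.sum_mul, ← Finset.prod_pow_eq_pow_sum]
    refine Finset.prod_congr rfl (fun v _ => ?_)
    rw [← pow_mul]
  have hPw : 0 < ∏ v, ∏ i, w v i :=
    Finset.prod_pos (fun v _ => Finset.prod_pos (fun i _ => hw v i))
  have hPq : 0 ≤ ∏ u, ∏ i, (q u i : ℝ) :=
    Finset.prod_nonneg (fun v _ => Finset.prod_nonneg (fun i _ => Nat.cast_nonneg _))
  have h3 : (∏ v, ∏ i, (S v i : ℝ)) * ∏ u, ∏ i, (q u i : ℝ) ≤ Z ^ (n * Fintype.card I) := by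
    refine (mul_le_mul_of_nonneg_right h1 hPq).trans ?_
    rw [div_mul_eq_mul_div, div_le_iff₀ hPw, mul_pow]
    calc C ^ (n * Fintype.card I) * Z ^ (n * Fintype.card I) * ∏ u, ∏ i, (q u i : ℝ)
        = Z ^ (n * Fintype.card I) * (C ^ (n * Fintype.card I) *
          ∏ u, ∏ i, (q u i : ℝ)) := by ring
      _ ≤ _ := mul_le_mul_of_nonneg_left hq (by positivity)
  have h4 : (((∏ v, ∏ i, S v i) * ∏ u, ∏ i, q u i : ℕ) : ℝ) < (M : ℝ) := by
    rw [hM]
    push_cast
    refine lt_of_le_of_lt h3 ?_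
    apply pow_lt_pow_left₀ (by linarith) (by linarith)
    exact (Nat.mul_pos hn hI).ne'
  exact_mod_cast h4


/-- the linear form `A_v x` at a lattice point, embedded in `ℂ` -/
noncomputable def ev {k : Type} [Field k] [NumberField k] {ι : Type} [Fintype ι]
    (A : InfinitePlace k → Matrix ι ι k) (x : ι → 𝓞 k) (v : InfinitePlace k) (i : ι) : ℂ :=
  v.embedding ((A v).mulVec (fun l => ((x l : 𝓞 k) : k)) i)

theorem ev_sub {k : Type} [Field k] [NumberField k] {ι : Type} [Fintype ι]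
    (A : InfinitePlace k → Matrix ι ι k) (x y : ι → 𝓞 k) (v : InfinitePlace k) (i : ι) :
    ev A (fun i => x i - y i) v i = ev A x v i - ev A y v i := by
  unfold ev
  rw [← map_sub]
  congr 1
  simp only [Matrix.mulVec, dotProduct]
  rw [← Finset.sum_sub_distrib]
  refine Finset.sum_congr rfl (fun l _ => ?_)
  rw [← mul_sub]
  congr 1

theorem ev_im {k : Type} [Field k] [NumberField k] {ι : Type} [Fintype ι]
    (A : InfinitePlace k → Matrix ι ι k) (x : ι → 𝓞 k) (v : InfinitePlace k) (i : ι)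
    (hv : v.IsReal) : (ev A x v i).im = 0 := by
  unfold ev
  rw [← InfinitePlace.embedding_of_isReal_apply hv]
  exact Complex.ofReal_im _

theorem mult_eq {k : Type} [Field k] (v : InfinitePlace k) [Decidable v.IsReal] :
    v.mult = if v.IsReal then 1 else 2 := by
  unfold InfinitePlace.mult
  by_cases h : v.IsReal <;> simp [h]

theorem m1int : M1int := by
  intro k _ _ T ι _ _ _ A
  classical
  let ω := RingOfIntegers.basis k
  set C0 : ℝ := ∑ v : InfinitePlace k, ∑ i, ∑ l, v (A v i l) * ∑ j, v (ω j : k) with hC0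
  have hC0nn : 0 ≤ C0 := Finset.sum_nonneg (fun v _ => Finset.sum_nonneg (fun i _ =>
    Finset.sum_nonneg (fun l _ => mul_nonneg (apply_nonneg v _)
      (Finset.sum_nonneg (fun j _ => apply_nonneg v _)))))
  have hnpos : 0 < Module.finrank ℚ k := Module.finrank_pos
  have hNpos : 0 < Fintype.card ι := Fintype.card_pos
  refine ⟨(4 * C0 + 4) ^ (Module.finrank ℚ k * Fintype.card ι), by positivity, ?_⟩
  intro B a w hw hC
  -- choice of `Z`
  obtain ⟨Z, hZ⟩ := exists_nat_ge (1 + ∑ v, ∑ i, (w v i + 1))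
  have hsum0 : 0 ≤ ∑ v, ∑ i, (w v i + 1) :=
    Finset.sum_nonneg (fun v _ => Finset.sum_nonneg (fun i _ => by have := hw v i; linarith))
  have hZ1 : (1:ℝ) ≤ Z := by linarith
  have hZw : ∀ v i, w v i + 1 ≤ Z := by
    intro v i
    have h1 : w v i + 1 ≤ ∑ i, (w v i + 1) :=
      Finset.single_le_sum (f := fun i => w v i + 1)
        (fun i _ => by have := hw v i; linarith) (Finset.mem_univ i)
    have h2 : ∑ i, (w v i + 1) ≤ ∑ v, ∑ i, (w v i + 1) :=
      Finset.single_le_sum (f := fun v => ∑ i, (w v i + 1))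
        (fun v _ => Finset.sum_nonneg (fun i _ => by have := hw v i; linarith))
        (Finset.mem_univ v)
    linarith
  obtain ⟨c, c', hcc, hfc, hgc⟩ := pigeon
    (P := ι × Module.Free.ChooseBasisIndex ℤ (𝓞 k) → Fin (Z + 1))
    (fun v i => cells v.IsReal (w v i) (C0 * Z))
    (fun (u : {w : FinitePlace k // w ∈ T}) (i : ι) =>
      𝓞 k ⧸ (u.1.maximalIdeal.asIdeal ^ a u i : Ideal (𝓞 k)))
    (fun u i => finite_quot u.1 (a u i))
    (fun c v i => cell v.IsReal (w v i) (ev A (pt ω Z c) v i))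
    (fun c u i => Ideal.Quotient.mk _ ((B u).mulVec (pt ω Z c) i))
    (by
      intro c v i
      apply cell_mem _ (hw v i)
      unfold ev
      rw [InfinitePlace.norm_embedding_eq]
      exact mulVec_bound ω Z c A v i)
    (by
      apply count_lt _ _ (fun v : InfinitePlace k => v.mult) w (4 * C0 + 4) Z
        (Module.finrank ℚ k) _ hnpos hNpos (InfinitePlace.sum_mult_eq (K := k)) hw (by positivity)
        hZ1
      · intro v i
        have := card_cells v.IsReal (hw v i) hC0nn hZ1 (hZw v i) rfl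
        rw [mult_eq v]
        exact this
      · simp only [card_quot]
        exact hC
      · have h1 : Fintype.card (ι × Module.Free.ChooseBasisIndex ℤ (𝓞 k) → Fin (Z + 1)) =
            (Z + 1) ^ (Module.finrank ℚ k * Fintype.card ι) := by
          rw [Fintype.card_fun, Fintype.card_fin, Fintype.card_prod,
            ← Module.finrank_eq_card_chooseBasisIndex, RingOfIntegers.rank, mul_comm]
        rw [h1]
        push_cast
        rfl)
  refine ⟨fun i => pt ω Z c i - pt ω Z c' i, ?_, ?_, ?_⟩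
  · intro h0
    apply hcc
    apply pt_inj ω Z
    funext i
    exact sub_eq_zero.mp (congrFun h0 i)
  · intro v i
    have hcell := congrFun (congrFun hfc v) i
    have h2 := cell_eq v.IsReal (hw v i) hcell (by
      intro hr
      rw [← ev_sub]
      exact ev_im A _ v i hr)
    rw [← ev_sub] at h2
    unfold ev at h2
    rw [InfinitePlace.norm_embedding_eq, ← mult_eq v] at h2
    exact h2
  · intro u i
    have h2 : (Ideal.Quotient.mk (u.1.maximalIdeal.asIdeal ^ a u i))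
        ((B u).mulVec (pt ω Z c) i) =
        (Ideal.Quotient.mk (u.1.maximalIdeal.asIdeal ^ a u i)) ((B u).mulVec (pt ω Z c') i) :=
      congrFun (congrFun hgc u) i
    rw [Ideal.Quotient.eq] at h2
    have h3 : (B u).mulVec (fun i => pt ω Z c i - pt ω Z c' i) i =
        (B u).mulVec (pt ω Z c) i - (B u).mulVec (pt ω Z c') i := by
      simp only [Matrix.mulVec, dotProduct]
      rw [← Finset.sum_sub_distrib]
      exact Finset.sum_congr rfl (fun l _ => mul_sub _ _ _)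
    rw [h3]
    exact h2

end Pool.Agent.Helper54.Ru
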